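import Mathlib
import Pool.Agent.H.MP_4d2320_co.helper58.Core

set_option autoImplicit false

namespace Pool.Agent.H.MP_4d2320_co.helper58

open Finset

/-- Replacing the last entry of a decreasing list by its head. -/
theorem take_succ_le (a : ℝ) : ∀ (l : List ℝ), (∀ b ∈ l, b ≤ a) → 0 ≤ a → ∀ m : ℕ,
    (l.take (m + 1)).sum ≤ a + (l.take m).sum := by
  intro l hl ha m
  rcases lt_or_ge m l.length with h | h
  · rw [← List.take_concat_get' l m h, List.sum_append, List.sum_singleton]
    have := hl _ (List.getElem_mem h)
    linarith
  · rw [List.take_of_length_le (by omega), List.take_of_length_le h]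
    linarith

/-- The sum of a sub-multiset of a decreasing list of nonnegative numbers is at most the sum of the
first entries. -/
theorem subperm_sum_le : ∀ (l : List ℝ), l.Pairwise (· ≥ ·) → (∀ b ∈ l, 0 ≤ b) →
    ∀ t : List ℝ, t.Subperm l → t.sum ≤ (l.take t.length).sum := by
  intro l
  induction l with
  | nil =>
    intro _ _ t ht
    have : t = [] := List.subperm_nil.1 ht
    simp [this]
  | cons a l ih =>
    intro hs h0 t ht
    rw [List.pairwise_cons] at hs
    by_cases hat : a ∈ t
    · have h1 : (t.erase a).Subperm l := by
        have := ht.erase a
        rwa [List.erase_cons_head] at this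
      have h2 := ih hs.2 (fun b hb => h0 b (List.mem_cons_of_mem _ hb)) _ h1
      have h3 : t.sum = a + (t.erase a).sum := by
        have := (List.perm_cons_erase hat).sum_eq
        rw [this, List.sum_cons]
      have h4 : t.length = (t.erase a).length + 1 := by
        have := (List.perm_cons_erase hat).length_eq
        rw [this, List.length_cons]
      rw [h3, h4, List.take_succ_cons, List.sum_cons]
      linarith
    · have h1 : t.Subperm l := by
        have := ht.erase a
        rwa [List.erase_cons_head, List.erase_of_not_mem hat] at this
      have h2 := ih hs.2 (fun b hb => h0 b (List.mem_cons_of_mem _ hb)) _ h1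
      rcases Nat.eq_zero_or_pos t.length with h5 | h5
      · rw [List.length_eq_zero_iff] at h5
        simp [h5]
      · obtain ⟨m, hm⟩ : ∃ m, t.length = m + 1 := ⟨t.length - 1, by omega⟩
        rw [hm, List.take_succ_cons, List.sum_cons]
        rw [hm] at h2
        exact h2.trans (take_succ_le a l (fun b hb => hs.1 b hb) (h0 a (List.mem_cons_self)) m)

/-- Partial sums of a list as sums over intervals. -/
theorem sum_Icc_getD (l : List ℝ) (k : ℕ) :
    ∑ i ∈ Icc 1 k, l.getD (i - 1) 0 = (l.take k).sum := by
  induction k with
  | zero => simp
  | succ k ih =>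
    rw [sum_Icc_succ_top (by omega), ih]
    rcases lt_or_ge k l.length with h | h
    · rw [← List.take_concat_get' l k h, List.sum_append, List.sum_singleton]
      congr 1
      rw [Nat.add_sub_cancel, List.getD_eq_getElem _ _ h]
    · have e1 : l.take (k + 1) = l := List.take_of_length_le (by omega)
      have e2 : l.take k = l := List.take_of_length_le h
      rw [e1, e2, Nat.add_sub_cancel, List.getD_eq_default _ _ h, add_zero]

end Pool.Agent.H.MP_4d2320_co.helper58
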