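import Mathlib
import Pool.Agent.H.MP_4d2320_co.helper58.Sorted

set_option autoImplicit false

namespace Pool.Agent.H.MP_4d2320_co.helper58

open Finset

/-- The Laplacian of a symmetric matrix. -/
def lap {n : ℕ} (A : Matrix (Fin n) (Fin n) ℝ) : Matrix (Fin n) (Fin n) ℝ :=
  Matrix.diagonal (fun i => ∑ j, A i j) - A

/-- The roots of the characteristic polynomial of a real matrix in decreasing order. -/
noncomputable def eigs {n : ℕ} (L : Matrix (Fin n) (Fin n) ℝ) : List ℝ :=
  L.charpoly.roots.sort (· ≥ ·)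

/-- The pairs above the diagonal. -/
def pairs (n : ℕ) : Finset (Fin n × Fin n) := univ.filter (fun p => p.1 < p.2)

/-- The entries above the diagonal in decreasing order. -/
noncomputable def weights {n : ℕ} (A : Matrix (Fin n) (Fin n) ℝ) : List ℝ :=
  ((pairs n).val.map (fun p => A p.1 p.2)).sort (· ≥ ·)

/-- The total weight. -/
def total {n : ℕ} (A : Matrix (Fin n) (Fin n) ℝ) : ℝ := ∑ p ∈ pairs n, A p.1 p.2

theorem lap_herm {n : ℕ} {A : Matrix (Fin n) (Fin n) ℝ} (hA : A.IsSymm) : (lap A).IsHermitian := by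
  unfold lap
  rw [Matrix.IsHermitian, Matrix.conjTranspose_eq_transpose_of_trivial, Matrix.transpose_sub,
    Matrix.diagonal_transpose, hA]

theorem eigs_eq {n : ℕ} {L : Matrix (Fin n) (Fin n) ℝ} (hL : L.IsHermitian) :
    eigs L = List.ofFn hL.eigenvalues₀ := by
  have h := hL.sort_roots_charpoly_eq_eigenvalues₀
  have h2 : (L.charpoly.roots.map RCLike.re : Multiset ℝ) = L.charpoly.roots := by
    simp
  rw [h2] at h
  exact h

theorem eigs_length {n : ℕ} {L : Matrix (Fin n) (Fin n) ℝ} (hL : L.IsHermitian) :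
    (eigs L).length = n := by
  rw [eigs_eq hL, List.length_ofFn, Fintype.card_fin]

theorem eigs_sum {n : ℕ} {L : Matrix (Fin n) (Fin n) ℝ} (hL : L.IsHermitian) :
    (eigs L).sum = ∑ i, L i i := by
  have h1 := hL.trace_eq_sum_eigenvalues
  have h2 : (eigs L).sum = ∑ i, hL.eigenvalues i := by
    rw [eigs_eq hL, List.sum_ofFn]
    unfold Matrix.IsHermitian.eigenvalues
    exact (Equiv.sum_comp (Fintype.equivOfCardEq (Fintype.card_fin _)).symm
      hL.eigenvalues₀).symm
  rw [h2]
  rw [Matrix.trace] at h1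
  simpa using h1.symm

theorem eigs_take {n : ℕ} {L : Matrix (Fin n) (Fin n) ℝ} (hL : L.IsHermitian) (k : ℕ)
    (hk : k ≤ n) : ∃ s : Finset (Fin n), s.card = k ∧
      ((eigs L).take k).sum = ∑ i ∈ s, hL.eigenvalues i := by
  classical
  set e := (Fintype.equivOfCardEq (Fintype.card_fin (Fintype.card (Fin n))) :
    Fin (Fintype.card (Fin n)) ≃ Fin n) with he
  refine ⟨(univ.filter (fun i : Fin (Fintype.card (Fin n)) => (i : ℕ) < k)).map e.toEmbedding,
    ?_, ?_⟩
  · rw [card_map]
    have : Fintype.card (Fin n) = n := Fintype.card_fin n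
    rw [Fin.card_filter_val_lt]
    omega
  · rw [sum_map]
    have h1 : ∀ i : Fin (Fintype.card (Fin n)), hL.eigenvalues (e.toEmbedding i)
        = hL.eigenvalues₀ i := by
      intro i
      unfold Matrix.IsHermitian.eigenvalues
      rw [← he]
      simp
    simp only [h1]
    rw [eigs_eq hL, List.sum_take_ofFn]

theorem mem_pairs {n : ℕ} (p : Fin n × Fin n) : p ∈ pairs n ↔ p.1 < p.2 := by
  simp [pairs]

theorem weights_length {n : ℕ} (A : Matrix (Fin n) (Fin n) ℝ) :
    (weights A).length = n.choose 2 := by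
  unfold weights
  rw [Multiset.length_sort, Multiset.card_map]
  exact card_pairs n

theorem weights_sum {n : ℕ} (A : Matrix (Fin n) (Fin n) ℝ) : (weights A).sum = total A := by
  unfold weights total
  rw [← Multiset.sum_coe, Multiset.sort_eq]
  rfl

theorem sum_le_weights {n : ℕ} (A : Matrix (Fin n) (Fin n) ℝ) (h0 : ∀ i j, 0 ≤ A i j)
    (P : Finset (Fin n × Fin n)) (hP : ∀ p ∈ P, p.1 < p.2) :
    ∑ p ∈ P, A p.1 p.2 ≤ ((weights A).take P.card).sum := by
  classical
  have hsub : P.val ≤ (pairs n).val := Finset.val_le_iff.2 (fun p hp => (mem_pairs p).2 (hP p hp))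
  have h1 : P.val.map (fun p => A p.1 p.2) ≤ (pairs n).val.map (fun p => A p.1 p.2) :=
    Multiset.map_le_map hsub
  set t : List ℝ := (P.val.map (fun p => A p.1 p.2)).toList with ht
  have h2 : (t : Multiset ℝ) = P.val.map (fun p => A p.1 p.2) := Multiset.coe_toList _
  have h3 : (t : Multiset ℝ) ≤ (weights A : Multiset ℝ) := by
    rw [h2]
    unfold weights
    rw [Multiset.sort_eq]
    exact h1
  have h4 : t.Subperm (weights A) := Multiset.coe_le.1 h3
  have h5 := subperm_sum_le (weights A) (Multiset.pairwise_sort _ _) (by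
    intro b hb
    unfold weights at hb
    rw [Multiset.mem_sort, Multiset.mem_map] at hb
    obtain ⟨p, -, rfl⟩ := hb
    exact h0 _ _) t h4
  have h6 : t.sum = ∑ p ∈ P, A p.1 p.2 := by
    rw [← Multiset.sum_coe, h2]
    rfl
  have h7 : t.length = P.card := by
    rw [← Multiset.coe_card, h2, Multiset.card_map]
    rfl
  rw [← h6, ← h7]
  exact h5

theorem total_eq {n : ℕ} (A : Matrix (Fin n) (Fin n) ℝ) :
    (∑ i, ∑ j, if i < j then A i j else 0) = total A := by
  unfold total pairs
  rw [sum_filter, ← univ_product_univ, sum_product]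

theorem trace_lap {n : ℕ} (A : Matrix (Fin n) (Fin n) ℝ) (hA : A.IsSymm)
    (hd : ∀ i, A i i = 0) : ∑ i, lap A i i = 2 * total A := by
  have h1 := sum_pairs' A (fun a b => hA.apply b a) hd
  unfold total pairs
  rw [← h1]
  apply sum_congr rfl
  intro i _
  simp [lap, hd]

/-- All partial sums. -/
theorem top_le {n : ℕ} (A : Matrix (Fin n) (Fin n) ℝ) (hA : A.IsSymm) (h0 : ∀ i j, 0 ≤ A i j)
    (hd : ∀ i, A i i = 0) (k : ℕ) (hk : k ≤ n) :
    ((eigs (lap A)).take k).sum ≤ total A + ((weights A).take ((k + 1).choose 2)).sum := by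
  have ht : 0 ≤ total A := sum_nonneg (fun p _ => h0 _ _)
  rcases Nat.eq_zero_or_pos k with rfl | hk1
  · simp [ht]
  · rcases Nat.lt_or_ge (n - 1) k with h | h
    · have hkn : k = n := by omega
      subst hkn
      rw [List.take_of_length_le (by rw [eigs_length (lap_herm hA)]), eigs_sum (lap_herm hA),
        trace_lap A hA hd, List.take_of_length_le, weights_sum]
      · linarith
      · rw [weights_length]
        exact Nat.choose_le_choose 2 (by omega)
    · obtain ⟨s, hs, hsum⟩ := eigs_take (lap_herm hA) k hk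
      obtain ⟨P, hPc, hPlt, hP⟩ := main_ineq n A hA h0 hd (lap_herm hA) k hk1 h s hs
      rw [hsum]
      refine hP.trans ?_
      rw [total_eq, ← hPc]
      have := sum_le_weights A h0 P hPlt
      linarith

theorem last_nonpos {n : ℕ} (hn : 1 ≤ n) (A : Matrix (Fin n) (Fin n) ℝ) (hA : A.IsSymm) :
    (eigs (lap A)).getD (n - 1) 0 ≤ 0 := by
  have hL := lap_herm hA
  have hdet : (lap A).det = 0 := by
    rw [← Matrix.exists_mulVec_eq_zero_iff]
    refine ⟨fun _ => 1, ?_, ?_⟩
    · intro h
      have := congrFun h ⟨0, hn⟩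
      simp at this
    · funext i
      simp [lap, Matrix.mulVec, dotProduct, Matrix.diagonal_apply]
  rw [hL.det_eq_prod_eigenvalues] at hdet
  have h1 : ∃ i, hL.eigenvalues i = 0 := by
    have h2 : ∏ i, hL.eigenvalues i = 0 := by simpa using hdet
    rw [prod_eq_zero_iff] at h2
    obtain ⟨i, -, hi⟩ := h2
    exact ⟨i, hi⟩
  obtain ⟨i, hi⟩ := h1
  unfold Matrix.IsHermitian.eigenvalues at hi
  set j := (Fintype.equivOfCardEq (Fintype.card_fin (Fintype.card (Fin n)))).symm i with hj
  have hlen : n - 1 < (List.ofFn hL.eigenvalues₀).length := by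
    rw [List.length_ofFn, Fintype.card_fin]; omega
  rw [eigs_eq hL, List.getD_eq_getElem _ _ hlen, List.getElem_ofFn]
  have hle : j ≤ ⟨n - 1, by rw [Fintype.card_fin]; omega⟩ := by
    have h3 : (j : ℕ) < Fintype.card (Fin n) := j.2
    have h4 : Fintype.card (Fin n) = n := Fintype.card_fin n
    show (j : ℕ) ≤ n - 1
    omega
  have := hL.eigenvalues₀_antitone hle
  rw [hi] at this
  exact this

end Pool.Agent.H.MP_4d2320_co.helper58
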